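import Pool.Agent.H330.HA

/-!
# Harada's conjecture: primitive permutation groups with three normal subgroups suffice

Let `K` be an algebraically closed field of characteristic zero (for example `ℂ`), and let `O` be a
valuation ring of `K` whose maximal ideal contains the prime `p`; it defines the `p`-blocks of finite
groups: the block idempotents `e` are the primitive idempotents of the centre of `OG`. For a set `J`
of irreducible characters let `f_J` be the sum of the central idempotents of `KG` which belong to the
characters in `J`; the coefficient of `f_J` at `g` is `S_J (g⁻¹) / |G|`, where
`S_J (g) = ∑_{χ ∈ J} χ(1) χ(g)`. The sets `J` of characters of the block of `e` correspond to the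
idempotents `f` in the centre of `KG` with `f e = f`. So Harada's conjecture for `G` says that such an
idempotent `f ≠ 0`, whose coefficients at the `p`-singular elements are zero, is equal to `e`.

Let `q > 7` be a prime with `p ∣ q + 1` (and `4 ∣ q + 1` if `p = 2`); there are infinitely many such
`q`. Let `X_n` be the permutational wreath product of `PSL(2, q)` and the alternating group `A_n` in
its action on the `n (n - 1)` ordered pairs of distinct points.

(1) For `n ≥ 5` the group `X_n` has exactly three normal subgroups `1 < M < X_n`, where
`M = PSL(2, q) ^ (n (n - 1))` and `X_n / M = A_n`, and `X_n` is isomorphic to a primitive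
permutation group.

(2) If Harada's conjecture is true for `X_n`, then it is true for all groups `G` with
`|G| ^ 2 + 3 |G| ≤ n`.

(3) So Harada's conjecture is true for all finite groups if and only if it is true for the groups
`X_n`, `n` in an infinite set, if and only if it is true for the finite primitive permutation groups
which have exactly three normal subgroups.

Idea of the proof (with the block theory of helper373, `Pool.Agent.H373`). There are a subgroup `V` of
the base group of `X_n` of order prime to `p` which is normalised by `G ≤ X_n`, and a `G`-invariant
linear character of `V` which satisfies Mackey's condition outside `V G`. The linear map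
`c(z) = ∑_t t ε z t⁻¹` (`ε` the idempotent of the linear character, `t` the representatives of the
cosets of `V G`) is an isomorphism of the centre of `KG` onto an ideal of the centre of `K X_n`; it
maps elements with coefficients in `O` onto elements with coefficients in `O`, so blocks to blocks,
and if the coefficients of `z` at the `p`-singular elements are zero, this is true for `c(z)`, because
`p` divides the order of an element `v g` of `V G` only if it divides the order of `g`.
-/

set_option autoImplicit false

open Pool.Agent.H373.MN Pool.Agent.H330.HA

theorem Pool.Agent.Results.MP_02e251_al.ThreeNormalSubgroups.result (p : ℕ) [Fact p.Prime] :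
    (∀ N : ℕ, ∃ q, N < q ∧ Good p q) ∧
    ∀ q, Good p q →
      (∀ n, 5 ≤ n → ThreeNormal p q n (XP n q) ∧ IsPrimitiveGroup (XP n q)) ∧
      ∀ (K : Type) [Field K] [IsAlgClosed K] [CharZero K] (O : ValuationSubring K),
        (p : K) ∈ O.nonunits →
        (∀ (G : Type) [Group G] [Finite G] (n : ℕ), Nat.card G ^ 2 + 3 * Nat.card G ≤ n →
          Harada p O (XP n q) → Harada p O G) ∧
        (∀ S : Set ℕ, S.Infinite →
          ((∀ (G : Type) [Group G] [Finite G], Harada p O G) ↔
            ∀ n ∈ S, Harada p O (XP n q))) ∧
        ((∀ (G : Type) [Group G] [Finite G], Harada p O G) ↔
          ∀ (X : Type) [Group X] [Finite X], PrimitiveThree X → Harada p O X) :=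
  main p
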